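import Mathlib

/-!
# Multicolour Ramsey numbers of graphs with `m` edges: the random nested chain

Step 1 of the proof of `r(H;q) ≤ 2^(C_q √m)` : a nested chain of sets
`A 0 ⊇ A 1 ⊇ ...` in a `q`-coloured complete graph, with `A (i+1)` the neighbourhood in `A i`
of a vertex `t i ∈ A i` in a popular colour `c i`, such that for *every* nested sequence of small
sets `Q` at most few levels `i` are events: `Q` lies inside `A (i+1)` but has fewer than `n`
common neighbours in `A i` in the colour `c i`.
-/

set_option autoImplicit false

namespace Pool.Agent.Ram01c5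

open Finset

section Chain

variable {α : Type} [DecidableEq α] {q : ℕ} (col : Sym2 α → Fin q)

/-- the neighbours of `t` in `S` in colour `c` -/
def nb (c : Fin q) (S : Finset α) (t : α) : Finset α :=
  S.filter fun y => y ≠ t ∧ col s(t, y) = c

/-- the common neighbours of `Q` in `S` in colour `c` -/
def cn (c : Fin q) (S Q : Finset α) : Finset α :=
  S.filter fun y => ∀ v ∈ Q, y ≠ v ∧ col s(v, y) = c

/-- the event: `Q` is contained in the next set of the chain, but has few common neighbours -/
def Ev (n : ℕ) (c : Fin q) (S : Finset α) (t : α) (Q : Finset α) : Prop :=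
  Q ⊆ nb col c S t ∧ (cn col c S Q).card < n

instance (n : ℕ) (c : Fin q) (S : Finset α) (t : α) (Q : Finset α) :
    Decidable (Ev col n c S t Q) := by unfold Ev; infer_instance

lemma nb_subset (c : Fin q) (S : Finset α) (t : α) : nb col c S t ⊆ S := filter_subset _ _

lemma mem_nb {c : Fin q} {S : Finset α} {t y : α} :
    y ∈ nb col c S t ↔ y ∈ S ∧ y ≠ t ∧ col s(t, y) = c := by
  simp [nb]

lemma mem_cn {c : Fin q} {S Q : Finset α} {y : α} :
    y ∈ cn col c S Q ↔ y ∈ S ∧ ∀ v ∈ Q, y ≠ v ∧ col s(v, y) = c := by
  simp [cn]

/-- every vertex has a popular colour -/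
lemma exists_colour (S : Finset α) (t : α) (ht : t ∈ S) (hq : 0 < q) :
    ∃ c : Fin q, S.card - 1 ≤ q * (nb col c S t).card := by
  by_contra hcon
  push Not at hcon
  have hsum : ∑ c : Fin q, (nb col c S t).card = S.card - 1 := by
    have h1 : S.card - 1 = (S.erase t).card := (card_erase_of_mem ht).symm
    rw [h1, card_eq_sum_card_fiberwise (f := fun y => col s(t, y)) (t := univ)
      (fun _ _ => mem_coe.2 (mem_univ _))]
    refine sum_congr rfl fun c _ => ?_
    congr 1
    ext y
    simp only [mem_nb, mem_filter, mem_erase]
    tauto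
  have hlt : ∑ c : Fin q, q * (nb col c S t).card < ∑ _c : Fin q, (S.card - 1) := by
    apply sum_lt_sum_of_nonempty
    · exact ⟨⟨0, hq⟩, mem_univ _⟩
    · intro c _
      exact hcon c
  rw [← mul_sum, hsum, sum_const, card_univ, Fintype.card_fin, smul_eq_mul] at hlt
  exact lt_irrefl _ hlt

/-- One step of the chain. -/
lemma step {X : Type} [Fintype X] (Q : X → Finset α) (w : X → ℕ) (n B : ℕ) (S : Finset α)
    (hq : 0 < q) (hS2 : 2 ≤ S.card) (hS : q * (B * n) ≤ S.card) :
    ∃ c : Fin q, ∃ t ∈ S, S.card ≤ 2 * q * (nb col c S t).card ∧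
      ∑ x, w x * (if Ev col n c S t (Q x) then B else 1) ≤ 2 * ∑ x, w x := by
  classical
  have hex : ∀ t : α, ∃ c : Fin q, t ∈ S → S.card - 1 ≤ q * (nb col c S t).card := by
    intro t
    by_cases ht : t ∈ S
    · obtain ⟨c, hc⟩ := exists_colour col S t ht hq
      exact ⟨c, fun _ => hc⟩
    · exact ⟨⟨0, hq⟩, fun h => absurd h ht⟩
  choose cc hcc using hex
  -- popular colour
  obtain ⟨c0, hc0⟩ : ∃ c0 : Fin q, S.card ≤ q * (S.filter fun t => cc t = c0).card := by
    by_contra hcon
    push Not at hcon
    have hsum : ∑ c : Fin q, (S.filter fun t => cc t = c).card = S.card :=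
      (card_eq_sum_card_fiberwise (f := cc) (t := univ) (fun _ _ => mem_coe.2 (mem_univ _))).symm
    have hlt : ∑ c : Fin q, q * (S.filter fun t => cc t = c).card < ∑ _c : Fin q, S.card := by
      apply sum_lt_sum_of_nonempty
      · exact ⟨⟨0, hq⟩, mem_univ _⟩
      · intro c _
        exact hcon c
    rw [← mul_sum, hsum, sum_const, card_univ, Fintype.card_fin, smul_eq_mul] at hlt
    exact lt_irrefl _ hlt
  set R := S.filter fun t => cc t = c0 with hR
  have hRne : R.Nonempty := by
    rw [← card_pos]
    by_contra h
    have : R.card = 0 := by omega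
    rw [this] at hc0
    omega
  have hRB : B * n ≤ R.card := by
    have h1 : q * (B * n) ≤ q * R.card := hS.trans hc0
    exact Nat.le_of_mul_le_mul_left h1 hq
  -- the bound for one x
  have hone : ∀ x : X, ∑ t ∈ R, (if Ev col n c0 S t (Q x) then B else 1) ≤ 2 * R.card := by
    intro x
    by_cases hx : (cn col c0 S (Q x)).card < n
    · have hsub : (R.filter fun t => Ev col n c0 S t (Q x)) ⊆ cn col c0 S (Q x) := by
        intro t ht
        rw [mem_filter] at ht
        rw [mem_cn]
        refine ⟨(mem_filter.1 ht.1).1, fun v hv => ?_⟩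
        have h2 := (mem_nb col).1 (ht.2.1 hv)
        refine ⟨fun h => h2.2.1 h.symm, ?_⟩
        rw [Sym2.eq_swap]
        exact h2.2.2
      have hcard : (R.filter fun t => Ev col n c0 S t (Q x)).card ≤ n :=
        (card_le_card hsub).trans hx.le
      calc ∑ t ∈ R, (if Ev col n c0 S t (Q x) then B else 1)
          ≤ ∑ t ∈ R, (1 + (if Ev col n c0 S t (Q x) then B else 0)) := by
            apply sum_le_sum
            intro t _
            split_ifs <;> omega
        _ = R.card + (R.filter fun t => Ev col n c0 S t (Q x)).card * B := by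
            rw [sum_add_distrib, sum_const, smul_eq_mul, mul_one, ← sum_filter, sum_const,
              smul_eq_mul]
        _ ≤ R.card + n * B := by gcongr
        _ ≤ 2 * R.card := by
            have : n * B = B * n := Nat.mul_comm _ _
            omega
    · have : ∀ t ∈ R, (if Ev col n c0 S t (Q x) then B else 1) = 1 := by
        intro t _
        rw [if_neg]
        intro h
        exact hx h.2
      rw [sum_congr rfl this, sum_const, smul_eq_mul, mul_one]
      omega
  have htot : ∑ t ∈ R, ∑ x, w x * (if Ev col n c0 S t (Q x) then B else 1)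
      ≤ ∑ _t ∈ R, 2 * ∑ x, w x := by
    rw [sum_comm]
    calc ∑ x, ∑ t ∈ R, w x * (if Ev col n c0 S t (Q x) then B else 1)
        = ∑ x, w x * ∑ t ∈ R, (if Ev col n c0 S t (Q x) then B else 1) := by
          refine sum_congr rfl fun x _ => ?_
          rw [mul_sum]
      _ ≤ ∑ x, w x * (2 * R.card) := by
          apply sum_le_sum
          intro x _
          exact Nat.mul_le_mul_left _ (hone x)
      _ = ∑ _t ∈ R, 2 * ∑ x, w x := by
          rw [sum_const, smul_eq_mul, ← sum_mul]
          ring
  obtain ⟨t, htR, ht⟩ := exists_le_of_sum_le hRne htot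
  have htS : t ∈ S := (mem_filter.1 htR).1
  refine ⟨c0, t, htS, ?_, ht⟩
  have h3 := hcc t htS
  rw [(mem_filter.1 htR).2] at h3
  have h4 : 2 * q * (nb col c0 S t).card = 2 * (q * (nb col c0 S t).card) := by ring
  omega

/-- The chain. -/
lemma chain [Fintype α] {X : Type} [Fintype X] (Q : X → ℕ → Finset α) (n B M : ℕ)
    (hq : 0 < q) (hn : 0 < n) (hB : 2 ≤ B)
    (hN : (2 * q) ^ M * (q * (B * n)) ≤ Fintype.card α) :
    ∀ k ≤ M, ∃ (A : ℕ → Finset α) (t : ℕ → α) (c : ℕ → Fin q),
      (∀ i < k, t i ∈ A i ∧ A (i + 1) = nb col (c i) (A i) (t i)) ∧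
      Fintype.card α ≤ (2 * q) ^ k * (A k).card ∧
      ∑ x, B ^ ((range k).filter fun i => Ev col n (c i) (A i) (t i) (Q x i)).card
        ≤ 2 ^ k * Fintype.card X := by
  classical
  have hpos : 0 < Fintype.card α := by
    refine lt_of_lt_of_le ?_ hN
    positivity
  have : Nonempty α := Fintype.card_pos_iff.1 hpos
  intro k
  induction k with
  | zero =>
    intro _
    refine ⟨fun _ => univ, fun _ => Classical.arbitrary α, fun _ => ⟨0, hq⟩, ?_, ?_, ?_⟩
    · intro i hi
      exact absurd hi (Nat.not_lt_zero _)
    · simp
    · simp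
  | succ k ih =>
    intro hk
    obtain ⟨A, t, c, h1, h2, h3⟩ := ih (by omega)
    have hAk : q * (B * n) ≤ (A k).card := by
      have h5 : (2 * q) ^ k * (q * (B * n)) ≤ (2 * q) ^ k * (A k).card := by
        refine le_trans ?_ (hN.trans h2)
        apply Nat.mul_le_mul_right
        exact Nat.pow_le_pow_right (by omega) (by omega)
      exact Nat.le_of_mul_le_mul_left h5 (by positivity)
    have hAk2 : 2 ≤ (A k).card := by
      refine le_trans ?_ hAk
      calc 2 = 1 * (2 * 1) := by norm_num
        _ ≤ q * (B * n) := by
          apply Nat.mul_le_mul hq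
          exact Nat.mul_le_mul hB hn
    obtain ⟨c', t', ht', hcard, hsum⟩ := step col (fun x => Q x k)
      (fun x => B ^ ((range k).filter fun i => Ev col n (c i) (A i) (t i) (Q x i)).card)
      n B (A k) hq hAk2 hAk
    refine ⟨Function.update A (k + 1) (nb col c' (A k) t'), Function.update t k t',
      Function.update c k c', ?_, ?_, ?_⟩
    · intro i hi
      rcases Nat.lt_succ_iff_lt_or_eq.1 hi with hi | rfl
      · rw [Function.update_of_ne (by omega), Function.update_of_ne (by omega),
          Function.update_of_ne (by omega), Function.update_of_ne (by omega)]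
        exact h1 i hi
      · rw [Function.update_self, Function.update_of_ne (by omega), Function.update_self,
          Function.update_self]
        exact ⟨ht', rfl⟩
    · rw [Function.update_self]
      calc Fintype.card α ≤ (2 * q) ^ k * (A k).card := h2
        _ ≤ (2 * q) ^ k * (2 * q * (nb col c' (A k) t').card) := Nat.mul_le_mul_left _ hcard
        _ = _ := by ring
    · have hE : ∀ x, B ^ ((range (k + 1)).filter fun i =>
          Ev col n (Function.update c k c' i) (Function.update A (k + 1) (nb col c' (A k) t') i)
            (Function.update t k t' i) (Q x i)).card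
          = B ^ ((range k).filter fun i => Ev col n (c i) (A i) (t i) (Q x i)).card *
            (if Ev col n c' (A k) t' (Q x k) then B else 1) := by
        intro x
        rw [range_add_one, filter_insert]
        have hcongr : ((range k).filter fun i =>
          Ev col n (Function.update c k c' i) (Function.update A (k + 1) (nb col c' (A k) t') i)
            (Function.update t k t' i) (Q x i))
          = (range k).filter fun i => Ev col n (c i) (A i) (t i) (Q x i) := by
          apply filter_congr
          intro i hi
          have hi' := mem_range.1 hi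
          rw [Function.update_of_ne (by omega), Function.update_of_ne (by omega),
            Function.update_of_ne (by omega)]
        rw [hcongr]
        rw [Function.update_self, Function.update_of_ne (by omega : k ≠ k + 1),
          Function.update_self]
        split_ifs with hev
        · rw [card_insert_of_notMem (by simp), pow_succ]
        · rw [mul_one]
      simp only [hE]
      calc _ ≤ 2 * ∑ x, B ^ ((range k).filter fun i =>
            Ev col n (c i) (A i) (t i) (Q x i)).card := hsum
        _ ≤ 2 * (2 ^ k * Fintype.card X) := Nat.mul_le_mul_left _ h3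
        _ = _ := by ring

end Chain

end Pool.Agent.Ram01c5
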