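import Pool.Agent.Lib_MP_01c500_full.Embed

/-!
# The combinatorial core

Every `q`-colouring of a complete graph on `N = (2q)^M q B n` vertices contains a monochromatic
copy of every graph with `n` vertices which has, outside a set `Big`, all degrees at most `D`;
here `M = q L`, `L ≥ |Big| + 3 D` and `B = 2^M (2q)^M q n (M+1) + 1`.
-/

set_option autoImplicit false

namespace Pool.Agent.Ram01c5

open Finset

/-- the number `B` -/
def BB (q M n : ℕ) : ℕ := 2 ^ M * ((2 * q) ^ M * (q * (n * (M + 1)))) + 1

/-- the number of vertices -/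
def NN (q M n : ℕ) : ℕ := (2 * q) ^ M * (q * (BB q M n * n))

lemma BB_pow (q M n D : ℕ) (hD : 0 < D) (hB : 0 < BB q M n) :
    2 ^ M * (NN q M n * (M + 1)) ^ D < BB q M n ^ (2 * D) := by
  have h1 : 2 ^ M * ((2 * q) ^ M * (q * (n * (M + 1)))) < BB q M n := by
    unfold BB; omega
  have h2 : (2 ^ M * ((2 * q) ^ M * (q * (n * (M + 1))))) ^ D < BB q M n ^ D :=
    Nat.pow_lt_pow_left h1 (by omega)
  have h3 : 2 ^ M ≤ (2 ^ M) ^ D := Nat.le_self_pow (by omega) _
  calc 2 ^ M * (NN q M n * (M + 1)) ^ D
      ≤ (2 ^ M) ^ D * (NN q M n * (M + 1)) ^ D := Nat.mul_le_mul_right _ h3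
    _ = (2 ^ M * ((2 * q) ^ M * (q * (n * (M + 1))))) ^ D * BB q M n ^ D := by
        rw [← mul_pow, ← mul_pow]
        congr 1
        unfold NN
        ring
    _ < BB q M n ^ D * BB q M n ^ D := by
        apply Nat.mul_lt_mul_of_pos_right h2
        positivity
    _ = BB q M n ^ (2 * D) := by rw [two_mul, pow_add]

theorem core {V : Type} [Fintype V] [DecidableEq V] (H : SimpleGraph V) [DecidableRel H.Adj]
    (q L D n M N : ℕ) (Big : Finset V) (hq : 0 < q) (hD : 0 < D) (hn : Fintype.card V = n)
    (hV : 0 < n) (hM : M = q * L) (hNdef : N = NN q M n)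
    (hL : Big.card + 3 * D ≤ L) (hdeg : ∀ v, v ∉ Big → H.degree v ≤ D)
    (col : Sym2 (Fin N) → Fin q) :
    ∃ i : Fin q, ∃ f : V → Fin N,
      Function.Injective f ∧ ∀ u v : V, H.Adj u v → col s(f u, f v) = i := by
  classical
  have hMpos : 0 < M := by rw [hM]; exact Nat.mul_pos hq (by omega)
  have hB2 : 2 ≤ BB q M n := by
    unfold BB
    have : 0 < 2 ^ M * ((2 * q) ^ M * (q * (n * (M + 1)))) := by positivity
    omega
  have hNpos : 0 < N := by
    rw [hNdef]
    unfold NN
    positivity
  have : Nonempty (Fin N) := ⟨⟨0, hNpos⟩⟩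
  let X := Fin D → Fin N × Fin (M + 1)
  let Q : X → ℕ → Finset (Fin N) := fun x j =>
    (univ.filter fun k => j < ((x k).2 : ℕ)).image fun k => (x k).1
  obtain ⟨A, t, c, h1, h2, h3⟩ := chain col Q n (BB q M n) M hq hV hB2
    (by rw [Fintype.card_fin, hNdef]; exact le_of_eq rfl) M le_rfl
  have hcardX : Fintype.card X = (N * (M + 1)) ^ D := by
    simp [X]
  -- few events
  have hfew : ∀ x : X, ((range M).filter fun i =>
      Ev col n (c i) (A i) (t i) (Q x i)).card < 2 * D := by
    intro x
    by_contra hcon
    push Not at hcon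
    have h4 : BB q M n ^ (2 * D) ≤ 2 ^ M * (N * (M + 1)) ^ D := by
      calc BB q M n ^ (2 * D) ≤ BB q M n ^ ((range M).filter fun i =>
            Ev col n (c i) (A i) (t i) (Q x i)).card := Nat.pow_le_pow_right (by omega) hcon
        _ ≤ ∑ x, BB q M n ^ ((range M).filter fun i =>
            Ev col n (c i) (A i) (t i) (Q x i)).card :=
          single_le_sum (f := fun x => BB q M n ^ ((range M).filter fun i =>
            Ev col n (c i) (A i) (t i) (Q x i)).card) (fun _ _ => Nat.zero_le _) (mem_univ x)
        _ ≤ 2 ^ M * Fintype.card X := h3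
        _ = _ := by rw [hcardX]
    rw [hNdef] at h4
    exact absurd (BB_pow q M n D hD (by omega)) (not_lt.2 h4)
  have hev : ∀ (U : Finset V) (g : V → Fin N) (l : V → ℕ), U.card ≤ D → (∀ u ∈ U, l u ≤ M) →
      ((range M).filter fun j => Ev col n (c j) (A j) (t j)
        ((U.filter fun u => j < l u).image g)).card < 2 * D := by
    intro U g l hU hl
    obtain ⟨e⟩ : Nonempty (U ↪ Fin D) := by
      apply Function.Embedding.nonempty_of_card_le
      simpa using hU
    let x : X := fun k => if h : ∃ u : U, e u = k then
      (g h.choose, ⟨l h.choose, Nat.lt_succ_of_le (hl _ h.choose.2)⟩)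
      else (Classical.arbitrary _, ⟨0, Nat.succ_pos _⟩)
    have hx : ∀ u : U, x (e u) = (g u, ⟨l u, Nat.lt_succ_of_le (hl _ u.2)⟩) := by
      intro u
      have hex : ∃ u' : U, e u' = e u := ⟨u, rfl⟩
      have hch : hex.choose = u := e.injective hex.choose_spec
      simp only [x, dif_pos hex]
      rw [Prod.mk.injEq]
      refine ⟨by rw [hch], ?_⟩
      apply Fin.ext
      simp only [hch]
    have hQ : ∀ j, Q x j = (U.filter fun u => j < l u).image g := by
      intro j
      ext a
      simp only [Q, mem_image, mem_filter, mem_univ, true_and]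
      constructor
      · rintro ⟨k, hk, rfl⟩
        by_cases hex : ∃ u : U, e u = k
        · obtain ⟨u, rfl⟩ := hex
          rw [hx u] at hk ⊢
          exact ⟨u, ⟨u.2, hk⟩, rfl⟩
        · simp only [x, dif_neg hex] at hk
          omega
      · rintro ⟨u, ⟨hu, hju⟩, rfl⟩
        refine ⟨e ⟨u, hu⟩, ?_, ?_⟩
        · rw [hx]; exact hju
        · rw [hx]
    have := hfew x
    simpa only [hQ] using this
  -- the popular colour
  obtain ⟨cs, hcs⟩ : ∃ cs : Fin q, L ≤ ((range M).filter fun j => c j = cs).card := by
    by_contra hcon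
    push Not at hcon
    have hsum : ∑ cs : Fin q, ((range M).filter fun j => c j = cs).card = (range M).card :=
      (card_eq_sum_card_fiberwise (f := c) (t := univ) (fun _ _ => mem_coe.2 (mem_univ _))).symm
    have hlt : ∑ cs : Fin q, ((range M).filter fun j => c j = cs).card < ∑ _c : Fin q, L := by
      apply sum_lt_sum_of_nonempty
      · exact ⟨⟨0, hq⟩, mem_univ _⟩
      · intro cs _
        exact hcon cs
    rw [hsum, sum_const, card_univ, Fintype.card_fin, smul_eq_mul, card_range, hM] at hlt
    exact lt_irrefl _ hlt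
  -- the first levels are reserved for `Big`
  have hexi : ∃ i, Big.card ≤ ((range M).filter fun j => c j = cs ∧ j < i).card := by
    refine ⟨M, ?_⟩
    have : ((range M).filter fun j => c j = cs ∧ j < M) = (range M).filter fun j => c j = cs := by
      apply filter_congr
      intro j hj
      simp [mem_range.1 hj]
    rw [this]
    omega
  set i0 := Nat.find hexi with hi0
  have hi0spec : Big.card ≤ ((range M).filter fun j => c j = cs ∧ j < i0).card :=
    Nat.find_spec hexi
  have hi0le : ((range M).filter fun j => c j = cs ∧ j < i0).card ≤ Big.card := by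
    rcases Nat.eq_zero_or_pos i0 with h0 | hpos
    · rw [h0]
      simp
    · have hmin := Nat.find_min hexi (m := i0 - 1) (by omega)
      push Not at hmin
      have hsub : ((range M).filter fun j => c j = cs ∧ j < i0) ⊆
          insert (i0 - 1) ((range M).filter fun j => c j = cs ∧ j < i0 - 1) := by
        intro j hj
        rw [mem_filter] at hj
        rw [mem_insert, mem_filter]
        by_cases h5 : j = i0 - 1
        · exact Or.inl h5
        · exact Or.inr ⟨hj.1, hj.2.1, by omega⟩
      have h6 := card_le_card hsub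
      have h7 := card_insert_le (i0 - 1) ((range M).filter fun j => c j = cs ∧ j < i0 - 1)
      omega
  have h3D : 3 * D ≤ ((range M).filter fun j => c j = cs ∧ i0 ≤ j).card := by
    have hsplit : ((range M).filter fun j => c j = cs).card ≤
        ((range M).filter fun j => c j = cs ∧ j < i0).card +
        ((range M).filter fun j => c j = cs ∧ i0 ≤ j).card := by
      rw [← card_union_of_disjoint]
      · apply card_le_card
        intro j hj
        rw [mem_filter] at hj
        rw [mem_union, mem_filter, mem_filter]
        rcases Nat.lt_or_ge j i0 with h | h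
        · exact Or.inl ⟨hj.1, hj.2, h⟩
        · exact Or.inr ⟨hj.1, hj.2, h⟩
      · rw [disjoint_left]
        intro j hj hj'
        rw [mem_filter] at hj hj'
        omega
    omega
  obtain ⟨f, hfinj, hfA, hfadj⟩ := embed col H A t c M n D i0 cs Big hn.le inferInstance hD h1 hev
    hdeg h3D
  obtain ⟨e, heinj, he⟩ := exists_reps
    (fun _ : V => (range M).filter fun j => c j = cs ∧ j < i0) Big ∅ (by
      intro w _
      rw [card_empty, zero_add]
      exact hi0spec)
  have hkey : ∀ j j' y, j < j' → j' ≤ M → y ∈ A j' → y ≠ t j ∧ col s(t j, y) = c j := by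
    intro j j' y hj hj' hy
    have h5 := chain_anti col A t c M h1 (j + 1) j' hj hj' hy
    rw [(h1 j (by omega)).2] at h5
    exact ((mem_nb col).1 h5).2
  have hi0M : i0 ≤ M := by
    by_contra hcon
    have : ((range M).filter fun j => c j = cs ∧ i0 ≤ j) = ∅ := by
      apply filter_false_of_mem
      intro j hj h
      have := mem_range.1 hj
      omega
    rw [this, card_empty] at h3D
    omega
  have heM : ∀ v ∈ Big, e v < M ∧ c (e v) = cs ∧ e v < i0 := by
    intro v hv
    have := (he v hv).1
    rw [mem_filter, mem_range] at this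
    exact this
  refine ⟨cs, fun v => if v ∈ Big then t (e v) else f v, ?_, ?_⟩
  · intro u v huv
    by_cases hu : u ∈ Big
    · by_cases hv : v ∈ Big
      · simp only [hu, hv, if_true] at huv
        apply heinj (mem_coe.2 hu) (mem_coe.2 hv)
        by_contra hne
        rcases Nat.lt_or_gt_of_ne hne with hlt | hlt
        · exact (hkey (e u) (e v) (t (e v)) hlt (heM v hv).1.le (h1 _ (heM v hv).1).1).1 huv.symm
        · exact (hkey (e v) (e u) (t (e u)) hlt (heM u hu).1.le (h1 _ (heM u hu).1).1).1 huv
      · simp only [hu, hv, if_true, if_false] at huv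
        exact absurd huv.symm (hkey (e u) i0 (f v) (heM u hu).2.2 hi0M (hfA v hv)).1
    · by_cases hv : v ∈ Big
      · simp only [hu, hv, if_true, if_false] at huv
        exact absurd huv (hkey (e v) i0 (f u) (heM v hv).2.2 hi0M (hfA u hu)).1
      · simp only [hu, hv, if_false] at huv
        exact hfinj hu hv huv
  · intro u v huv
    by_cases hu : u ∈ Big
    · by_cases hv : v ∈ Big
      · simp only [hu, hv, if_true]
        have hne : e u ≠ e v := by
          intro h
          exact huv.ne (heinj (mem_coe.2 hu) (mem_coe.2 hv) h)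
        rcases Nat.lt_or_gt_of_ne hne with hlt | hlt
        · rw [(hkey (e u) (e v) (t (e v)) hlt (heM v hv).1.le (h1 _ (heM v hv).1).1).2]
          exact (heM u hu).2.1
        · rw [Sym2.eq_swap,
            (hkey (e v) (e u) (t (e u)) hlt (heM u hu).1.le (h1 _ (heM u hu).1).1).2]
          exact (heM v hv).2.1
      · simp only [hu, hv, if_true, if_false]
        rw [(hkey (e u) i0 (f v) (heM u hu).2.2 hi0M (hfA v hv)).2]
        exact (heM u hu).2.1
    · by_cases hv : v ∈ Big
      · simp only [hu, hv, if_true, if_false]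
        rw [Sym2.eq_swap, (hkey (e v) i0 (f u) (heM v hv).2.2 hi0M (hfA u hu)).2]
        exact (heM v hv).2.1
      · simp only [hu, hv, if_false]
        exact hfadj u v hu hv huv

end Pool.Agent.Ram01c5
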