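import Pool.Agent.Lib_MP_01c500_full.Chain

/-!
# Greedy embedding along the chain

At the levels of the chain which have the colour `cs`, from the deepest one upwards, we place a
maximal independent set of the vertices that are allowed at this level.
-/

set_option autoImplicit false

namespace Pool.Agent.Ram01c5

open Finset

/-- distinct representatives, avoiding `F` -/
lemma exists_reps {V α : Type} [DecidableEq V] [DecidableEq α] [Nonempty α] (L : V → Finset α) :
    ∀ (W : Finset V) (F : Finset α), (∀ w ∈ W, F.card + W.card ≤ (L w).card) →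
      ∃ g : V → α, Set.InjOn g (W : Set V) ∧ ∀ w ∈ W, g w ∈ L w ∧ g w ∉ F := by
  intro W
  induction W using Finset.induction_on with
  | empty =>
    intro F _
    exact ⟨fun _ => Classical.arbitrary α, by simp, by simp⟩
  | insert w W hw ih =>
    intro F hF
    have hcard : (insert w W).card = W.card + 1 := card_insert_of_notMem hw
    have h1 := hF w (mem_insert_self w W)
    have : (L w \ F).Nonempty := by
      rw [← card_pos]
      have := le_card_sdiff F (L w)
      omega
    obtain ⟨a, ha⟩ := this
    rw [mem_sdiff] at ha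
    obtain ⟨g, hg, hgL⟩ := ih (insert a F) (by
      intro w' hw'
      have h2 := hF w' (mem_insert_of_mem hw')
      have h3 : (insert a F).card ≤ F.card + 1 := card_insert_le a F
      omega)
    refine ⟨fun v => if v = w then a else g v, ?_, ?_⟩
    · intro u hu v hv huv
      rw [mem_coe, mem_insert] at hu hv
      by_cases huw : u = w
      · by_cases hvw : v = w
        · rw [huw, hvw]
        · exfalso
          have hvW : v ∈ W := hv.resolve_left hvw
          simp only [huw, if_true, hvw, if_false] at huv
          exact (hgL v hvW).2 (huv ▸ mem_insert_self _ _)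
      · have huW : u ∈ W := hu.resolve_left huw
        by_cases hvw : v = w
        · exfalso
          simp only [huw, if_false, hvw, if_true] at huv
          exact (hgL u huW).2 (huv ▸ mem_insert_self _ _)
        · have hvW : v ∈ W := hv.resolve_left hvw
          simp only [huw, if_false, hvw] at huv
          exact hg (mem_coe.2 huW) (mem_coe.2 hvW) huv
    · intro v hv
      rw [mem_insert] at hv
      by_cases hvw : v = w
      · simp only [hvw, if_true]
        exact ha
      · have hvW : v ∈ W := hv.resolve_left hvw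
        simp only [hvw, if_false]
        exact ⟨(hgL v hvW).1, fun h => (hgL v hvW).2 (mem_insert_of_mem h)⟩

section Embed

variable {α : Type} [DecidableEq α] {q : ℕ} (col : Sym2 α → Fin q)
variable {V : Type} [Fintype V] [DecidableEq V] (H : SimpleGraph V) [DecidableRel H.Adj]

/-- images of the placed neighbours of `v` deeper than level `j` -/
def QQ (P : Finset V) (f : V → α) (l : V → ℕ) (v : V) (j : ℕ) : Finset α :=
  ((H.neighborFinset v ∩ P).filter fun u => j < l u).image f

/-- the state of the embedding after the levels `≥ i` -/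
def Inv (A : ℕ → Finset α) (t : ℕ → α) (c : ℕ → Fin q) (M n : ℕ) (cs : Fin q)
    (Big : Finset V) (i : ℕ) : Prop :=
  ∃ (P : Finset V) (f : V → α) (l : V → ℕ),
    (∀ v ∈ P, v ∉ Big ∧ i ≤ l v ∧ l v < M ∧ f v ∈ A (l v)) ∧
    Set.InjOn f (P : Set V) ∧
    (∀ u ∈ P, ∀ v ∈ P, H.Adj u v → col s(f u, f v) = cs) ∧
    ∀ v, v ∉ Big → v ∉ P →
      ((range M).filter fun j => c j = cs ∧ i ≤ j).card ≤
        (H.neighborFinset v ∩ P).card +
        (((range M).filter fun j => c j = cs ∧ i ≤ j).filter
          fun j => Ev col n (c j) (A j) (t j) (QQ H P f l v j)).card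

/-- a maximal independent subset -/
lemma exists_max_indep (S : Finset V) :
    ∃ W ⊆ S, (∀ u ∈ W, ∀ v ∈ W, ¬ H.Adj u v) ∧ ∀ v ∈ S, v ∉ W → ∃ w ∈ W, H.Adj v w := by
  classical
  obtain ⟨W, hW, hmax⟩ := exists_max_image
    (S.powerset.filter fun W => ∀ u ∈ W, ∀ v ∈ W, ¬ H.Adj u v) card ⟨∅, by simp⟩
  rw [mem_filter, mem_powerset] at hW
  refine ⟨W, hW.1, hW.2, fun v hv hvW => ?_⟩
  by_contra hcon
  push Not at hcon
  have h1 := hmax (insert v W) (by
    rw [mem_filter, mem_powerset]
    refine ⟨insert_subset hv hW.1, ?_⟩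
    intro a ha b hb
    rw [mem_insert] at ha hb
    rcases ha with rfl | ha
    · rcases hb with rfl | hb
      · exact H.loopless.irrefl _
      · exact hcon b hb
    · rcases hb with rfl | hb
      · exact fun h => hcon a ha h.symm
      · exact hW.2 a ha b hb)
  rw [card_insert_of_notMem hvW] at h1
  omega

lemma chain_anti (A : ℕ → Finset α) (t : ℕ → α) (c : ℕ → Fin q) (M : ℕ)
    (hA : ∀ i < M, t i ∈ A i ∧ A (i + 1) = nb col (c i) (A i) (t i)) (i j : ℕ) (hij : i ≤ j)
    (hj : j ≤ M) : A j ⊆ A i := by
  induction j, hij using Nat.le_induction with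
  | base => exact Subset.rfl
  | succ k hk ih =>
    rw [(hA k (by omega)).2]
    exact (nb_subset col _ _ _).trans (ih (by omega))

lemma inv_step (A : ℕ → Finset α) (t : ℕ → α) (c : ℕ → Fin q) (M n i : ℕ) (cs : Fin q)
    (Big : Finset V) (hn : Fintype.card V ≤ n) (hα : Nonempty α) (hi : i < M)
    (hA : ∀ i < M, t i ∈ A i ∧ A (i + 1) = nb col (c i) (A i) (t i))
    (h : Inv col H A t c M n cs Big (i + 1)) : Inv col H A t c M n cs Big i := by
  obtain ⟨P, f, l, hP, hinj, hadj, hcount⟩ := h
  by_cases hc : c i = cs
  swap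
  · -- nothing happens
    have hJ : ((range M).filter fun j => c j = cs ∧ i ≤ j)
        = ((range M).filter fun j => c j = cs ∧ i + 1 ≤ j) := by
      apply filter_congr
      intro j _
      constructor
      · rintro ⟨h1, h2⟩
        refine ⟨h1, ?_⟩
        rcases Nat.lt_or_ge i j with h3 | h3
        · exact h3
        · have : j = i := by omega
          rw [this] at h1
          exact absurd h1 hc
      · rintro ⟨h1, h2⟩
        exact ⟨h1, by omega⟩
    refine ⟨P, f, l, ?_, hinj, hadj, ?_⟩
    · intro v hv
      obtain ⟨h1, h2, h3, h4⟩ := hP v hv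
      exact ⟨h1, by omega, h3, h4⟩
    · intro v hv hvP
      rw [hJ]
      exact hcount v hv hvP
  -- the main case
  set Qv : V → Finset α := fun v => (H.neighborFinset v ∩ P).image f with hQv
  set OK : Finset V := univ.filter fun v => v ∉ Big ∧ v ∉ P ∧ n ≤ (cn col cs (A i) (Qv v)).card
    with hOK
  obtain ⟨W, hWOK, hWind, hWmax⟩ := exists_max_indep H OK
  have hWprop : ∀ w ∈ W, w ∉ Big ∧ w ∉ P ∧ n ≤ (cn col cs (A i) (Qv w)).card := by
    intro w hw
    exact (mem_filter.1 (hWOK hw)).2
  obtain ⟨g, hginj, hg⟩ := exists_reps (fun w => cn col cs (A i) (Qv w)) W (P.image f) (by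
    intro w hw
    have h1 : (P.image f).card ≤ P.card := card_image_le
    have h2 : P.card + W.card ≤ Fintype.card V := by
      rw [← card_union_of_disjoint]
      · exact card_le_univ _
      · rw [disjoint_right]
        intro a ha
        exact (hWprop a ha).2.1
    have h3 := (hWprop w hw).2.2
    omega)
  set f' : V → α := fun v => if v ∈ W then g v else f v with hf'
  set l' : V → ℕ := fun v => if v ∈ W then i else l v with hl'
  have hfW : ∀ v ∈ W, f' v = g v := fun v hv => by simp [hf', hv]
  have hfP : ∀ v ∈ P, f' v = f v := fun v hv => by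
    have : v ∉ W := fun h => (hWprop v h).2.1 hv
    simp [hf', this]
  have hlW : ∀ v ∈ W, l' v = i := fun v hv => by simp [hl', hv]
  have hlP : ∀ v ∈ P, l' v = l v := fun v hv => by
    have : v ∉ W := fun h => (hWprop v h).2.1 hv
    simp [hl', this]
  refine ⟨P ∪ W, f', l', ?_, ?_, ?_, ?_⟩
  · intro v hv
    rcases mem_union.1 hv with hv | hv
    · obtain ⟨h1, h2, h3, h4⟩ := hP v hv
      rw [hfP v hv, hlP v hv]
      exact ⟨h1, by omega, h3, h4⟩
    · rw [hfW v hv, hlW v hv]
      refine ⟨(hWprop v hv).1, le_refl _, hi, ?_⟩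
      exact ((mem_cn col).1 (hg v hv).1).1
  · intro u hu v hv huv
    rw [mem_coe] at hu hv
    rcases mem_union.1 hu with hu | hu
    · rcases mem_union.1 hv with hv | hv
      · rw [hfP u hu, hfP v hv] at huv
        exact hinj (mem_coe.2 hu) (mem_coe.2 hv) huv
      · rw [hfP u hu, hfW v hv] at huv
        exact absurd (huv ▸ mem_image_of_mem f hu) (hg v hv).2
    · rcases mem_union.1 hv with hv | hv
      · rw [hfW u hu, hfP v hv] at huv
        exact absurd (huv ▸ mem_image_of_mem f hv) (hg u hu).2
      · rw [hfW u hu, hfW v hv] at huv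
        exact hginj (mem_coe.2 hu) (mem_coe.2 hv) huv
  · intro u hu v hv huv
    rcases mem_union.1 hu with hu | hu
    · rcases mem_union.1 hv with hv | hv
      · rw [hfP u hu, hfP v hv]
        exact hadj u hu v hv huv
      · rw [hfP u hu, hfW v hv]
        have h1 := ((mem_cn col).1 (hg v hv).1).2 (f u) (mem_image_of_mem f (by
          rw [mem_inter, SimpleGraph.mem_neighborFinset]
          exact ⟨huv.symm, hu⟩))
        exact h1.2
    · rcases mem_union.1 hv with hv | hv
      · rw [hfW u hu, hfP v hv]
        have h1 := ((mem_cn col).1 (hg u hu).1).2 (f v) (mem_image_of_mem f (by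
          rw [mem_inter, SimpleGraph.mem_neighborFinset]
          exact ⟨huv, hv⟩))
        rw [Sym2.eq_swap]
        exact h1.2
      · exact absurd huv (hWind u hu v hv)
  · intro v hvB hvPW
    rw [mem_union, not_or] at hvPW
    obtain ⟨hvP, hvW⟩ := hvPW
    have hold := hcount v hvB hvP
    -- the level set grows by one
    have hJ : ((range M).filter fun j => c j = cs ∧ i ≤ j)
        = insert i ((range M).filter fun j => c j = cs ∧ i + 1 ≤ j) := by
      ext j
      simp only [mem_filter, mem_insert, mem_range]
      constructor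
      · rintro ⟨h1, h2, h3⟩
        rcases Nat.lt_or_ge i j with h4 | h4
        · exact Or.inr ⟨h1, h2, h4⟩
        · exact Or.inl (by omega)
      · rintro (rfl | ⟨h1, h2, h3⟩)
        · exact ⟨hi, hc, le_refl _⟩
        · exact ⟨h1, h2, by omega⟩
    have hiJ : i ∉ ((range M).filter fun j => c j = cs ∧ i + 1 ≤ j) := by
      simp
    -- the events at the old levels do not change
    have hQold : ∀ j, i + 1 ≤ j → QQ H (P ∪ W) f' l' v j = QQ H P f l v j := by
      intro j hj
      unfold QQ
      ext a
      simp only [mem_image, mem_filter, mem_inter, mem_union]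
      constructor
      · rintro ⟨u, ⟨⟨h1, h2⟩, h3⟩, h4⟩
        rcases h2 with h2 | h2
        · rw [hlP u h2] at h3
          rw [hfP u h2] at h4
          exact ⟨u, ⟨⟨h1, h2⟩, h3⟩, h4⟩
        · rw [hlW u h2] at h3
          omega
      · rintro ⟨u, ⟨⟨h1, h2⟩, h3⟩, h4⟩
        refine ⟨u, ⟨⟨h1, Or.inl h2⟩, ?_⟩, ?_⟩
        · rw [hlP u h2]; exact h3
        · rw [hfP u h2]; exact h4
    have hQnew : QQ H (P ∪ W) f' l' v i = Qv v := by
      rw [hQv]
      unfold QQ
      ext a
      simp only [mem_image, mem_filter, mem_inter, mem_union]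
      constructor
      · rintro ⟨u, ⟨⟨h1, h2⟩, h3⟩, h4⟩
        rcases h2 with h2 | h2
        · rw [hfP u h2] at h4
          exact ⟨u, ⟨h1, h2⟩, h4⟩
        · rw [hlW u h2] at h3
          omega
      · rintro ⟨u, ⟨h1, h2⟩, h4⟩
        refine ⟨u, ⟨⟨h1, Or.inl h2⟩, ?_⟩, ?_⟩
        · rw [hlP u h2]
          have := (hP u h2).2.1
          omega
        · rw [hfP u h2]; exact h4
    have hfilt : (((range M).filter fun j => c j = cs ∧ i + 1 ≤ j).filter
          fun j => Ev col n (c j) (A j) (t j) (QQ H (P ∪ W) f' l' v j))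
        = (((range M).filter fun j => c j = cs ∧ i + 1 ≤ j).filter
          fun j => Ev col n (c j) (A j) (t j) (QQ H P f l v j)) := by
      apply filter_congr
      intro j hj
      rw [hQold j (mem_filter.1 hj).2.2]
    rw [hJ, card_insert_of_notMem hiJ, filter_insert, hfilt]
    have hsub : H.neighborFinset v ∩ P ⊆ H.neighborFinset v ∩ (P ∪ W) :=
      inter_subset_inter_left subset_union_left
    by_cases hvOK : v ∈ OK
    · obtain ⟨w, hwW, hvw⟩ := hWmax v hvOK hvW
      have hlt : (H.neighborFinset v ∩ P).card < (H.neighborFinset v ∩ (P ∪ W)).card := by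
        apply card_lt_card
        refine ⟨hsub, fun hcon => ?_⟩
        have h1 : w ∈ H.neighborFinset v ∩ (P ∪ W) := by
          rw [mem_inter, SimpleGraph.mem_neighborFinset]
          exact ⟨hvw, mem_union_right _ hwW⟩
        exact (hWprop w hwW).2.1 (mem_inter.1 (hcon h1)).2
      have hle : (((range M).filter fun j => c j = cs ∧ i + 1 ≤ j).filter
          fun j => Ev col n (c j) (A j) (t j) (QQ H P f l v j)).card
          ≤ (if Ev col n (c i) (A i) (t i) (QQ H (P ∪ W) f' l' v i) then
            insert i (((range M).filter fun j => c j = cs ∧ i + 1 ≤ j).filter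
              fun j => Ev col n (c j) (A j) (t j) (QQ H P f l v j))
            else (((range M).filter fun j => c j = cs ∧ i + 1 ≤ j).filter
              fun j => Ev col n (c j) (A j) (t j) (QQ H P f l v j))).card := by
        split_ifs
        · exact card_le_card (subset_insert _ _)
        · exact le_refl _
      omega
    · have hfew : (cn col cs (A i) (Qv v)).card < n := by
        by_contra hcon
        push Not at hcon
        exact hvOK (mem_filter.2 ⟨mem_univ _, hvB, hvP, hcon⟩)
      have hEv : Ev col n (c i) (A i) (t i) (QQ H (P ∪ W) f' l' v i) := by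
        rw [hQnew]
        refine ⟨?_, ?_⟩
        · intro a ha
          obtain ⟨u, hu, rfl⟩ := mem_image.1 ha
          have huP := (mem_inter.1 hu).2
          obtain ⟨h1, h2, h3, h4⟩ := hP u huP
          rw [← (hA i hi).2]
          exact chain_anti col A t c M hA (i + 1) (l u) h2 h3.le h4
        · rw [hc]
          exact hfew
      rw [if_pos hEv, card_insert_of_notMem (fun h => hiJ (mem_filter.1 h).1)]
      have := card_le_card hsub
      omega

lemma embed (A : ℕ → Finset α) (t : ℕ → α) (c : ℕ → Fin q) (M n D i0 : ℕ) (cs : Fin q)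
    (Big : Finset V) (hn : Fintype.card V ≤ n) (hα : Nonempty α) (hD : 0 < D)
    (hA : ∀ i < M, t i ∈ A i ∧ A (i + 1) = nb col (c i) (A i) (t i))
    (hev : ∀ (U : Finset V) (g : V → α) (l : V → ℕ), U.card ≤ D → (∀ u ∈ U, l u ≤ M) →
      ((range M).filter fun j => Ev col n (c j) (A j) (t j)
        ((U.filter fun u => j < l u).image g)).card < 2 * D)
    (hdeg : ∀ v, v ∉ Big → H.degree v ≤ D)
    (h3 : 3 * D ≤ ((range M).filter fun j => c j = cs ∧ i0 ≤ j).card) :
    ∃ f : V → α, Set.InjOn f {v | v ∉ Big} ∧ (∀ v, v ∉ Big → f v ∈ A i0) ∧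
      ∀ u v, u ∉ Big → v ∉ Big → H.Adj u v → col s(f u, f v) = cs := by
  have hi0 : i0 < M := by
    by_contra hcon
    have : ((range M).filter fun j => c j = cs ∧ i0 ≤ j) = ∅ := by
      apply filter_false_of_mem
      intro j hj h
      have := mem_range.1 hj
      omega
    rw [this, card_empty] at h3
    omega
  have hinv : ∀ k, k ≤ M → Inv col H A t c M n cs Big (M - k) := by
    intro k
    induction k with
    | zero =>
      intro _
      refine ⟨∅, fun _ => Classical.choice hα, fun _ => 0, by simp, by simp, by simp, ?_⟩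
      intro v _ _
      have : ((range M).filter fun j => c j = cs ∧ M - 0 ≤ j) = ∅ := by
        apply filter_false_of_mem
        intro j hj h
        have := mem_range.1 hj
        omega
      rw [this]
      simp
    | succ k ih =>
      intro hk
      have h1 := ih (by omega)
      have h2 : M - k = M - (k + 1) + 1 := by omega
      rw [h2] at h1
      exact inv_step col H A t c M n (M - (k + 1)) cs Big hn hα (by omega) hA h1
  have h0 := hinv (M - i0) (by omega)
  have h1 : M - (M - i0) = i0 := by omega
  rw [h1] at h0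
  obtain ⟨P, f, l, hP, hinj, hadj, hcount⟩ := h0
  have hall : ∀ v, v ∉ Big → v ∈ P := by
    intro v hv
    by_contra hvP
    have h2 := hcount v hv hvP
    have h4 : (H.neighborFinset v ∩ P).card ≤ D :=
      (card_le_card inter_subset_left).trans (hdeg v hv)
    have h5 := hev (H.neighborFinset v ∩ P) f l h4 (fun u hu => (hP u (mem_inter.1 hu).2).2.2.1.le)
    have h6 : (((range M).filter fun j => c j = cs ∧ i0 ≤ j).filter
          fun j => Ev col n (c j) (A j) (t j) (QQ H P f l v j)).card ≤
        ((range M).filter fun j => Ev col n (c j) (A j) (t j)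
        (((H.neighborFinset v ∩ P).filter fun u => j < l u).image f)).card := by
      apply card_le_card
      intro j hj
      rw [mem_filter, mem_filter] at hj
      rw [mem_filter]
      exact ⟨hj.1.1, hj.2⟩
    omega
  refine ⟨f, ?_, ?_, ?_⟩
  · intro u hu v hv huv
    exact hinj (mem_coe.2 (hall u hu)) (mem_coe.2 (hall v hv)) huv
  · intro v hv
    obtain ⟨_, h2, h3', h4⟩ := hP v (hall v hv)
    exact chain_anti col A t c M hA i0 (l v) h2 h3'.le h4
  · intro u v hu hv huv
    exact hadj u (hall u hu) v (hall v hv) huv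

end Embed

end Pool.Agent.Ram01c5
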