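import Pool.Agent.Lib_MP_01c500_full.Core

/-!
# The bound `2^(110 q^2 √m)`
-/

set_option autoImplicit false

namespace Pool.Agent.Ram01c5

open Finset

/-- numerical estimate for the number of vertices -/
lemma NN_le (q D n : ℕ) (hq : 0 < q) (hD : 0 < D) (hn : n ≤ 2 * D ^ 2) :
    NN q (q * (5 * D)) n ≤ 2 ^ (55 * q ^ 2 * D) := by
  set M := q * (5 * D) with hM
  have hM5 : 5 * D ≤ M := by rw [hM]; exact Nat.le_mul_of_pos_left _ hq
  have hDM : 3 * D ≤ M := by omega
  have h2q : 2 * q ≤ 2 ^ (2 * q) := by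
    have h1 : q < 2 ^ q := Nat.lt_two_pow_self
    calc 2 * q ≤ 2 * 2 ^ q := by omega
      _ = 2 ^ (q + 1) := by rw [pow_succ]; ring
      _ ≤ 2 ^ (2 * q) := Nat.pow_le_pow_right (by norm_num) (by omega)
  have h2qM : (2 * q) ^ M ≤ 2 ^ (2 * q * M) := by
    calc (2 * q) ^ M ≤ (2 ^ (2 * q)) ^ M := Nat.pow_le_pow_left h2q M
      _ = _ := by rw [← pow_mul]
  have hqM : q ≤ 2 ^ M := by
    have h1 : q < 2 ^ q := Nat.lt_two_pow_self
    have h2 : q ≤ M := by rw [hM]; exact Nat.le_mul_of_pos_right _ (by omega)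
    exact h1.le.trans (Nat.pow_le_pow_right (by norm_num) h2)
  have hM1 : M + 1 ≤ 2 ^ M := Nat.lt_two_pow_self
  have h2M : 2 ≤ 2 ^ M := by
    calc 2 = 2 ^ 1 := by norm_num
      _ ≤ 2 ^ M := Nat.pow_le_pow_right (by norm_num) (by omega)
  have hnM : n ≤ 2 ^ M := by
    have h1 : D ≤ 2 ^ D := Nat.lt_two_pow_self.le
    calc n ≤ 2 * D ^ 2 := hn
      _ ≤ 2 ^ D * (2 ^ D) ^ 2 := by
        apply Nat.mul_le_mul
        · calc 2 = 2 ^ 1 := by norm_num
            _ ≤ 2 ^ D := Nat.pow_le_pow_right (by norm_num) hD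
        · exact Nat.pow_le_pow_left h1 2
      _ = 2 ^ (3 * D) := by rw [← pow_mul, ← pow_add]; congr 1; ring
      _ ≤ 2 ^ M := Nat.pow_le_pow_right (by norm_num) hDM
  by_cases hn0 : n = 0
  · unfold NN
    rw [hn0]
    simp
  have hpos : 1 ≤ 2 ^ M * ((2 * q) ^ M * (q * (n * (M + 1)))) := by
    have : 0 < n := Nat.pos_of_ne_zero hn0
    have : 0 < 2 ^ M * ((2 * q) ^ M * (q * (n * (M + 1)))) := by positivity
    omega
  have hB : BB q M n ≤ 2 ^ M * (2 ^ M * (2 ^ (2 * q * M) * (2 ^ M * (2 ^ M * 2 ^ M)))) := by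
    calc BB q M n ≤ 2 * (2 ^ M * ((2 * q) ^ M * (q * (n * (M + 1))))) := by
          unfold BB; omega
      _ ≤ _ := by gcongr
  have hNN : NN q M n ≤ 2 ^ (2 * q * M) * (2 ^ M *
      ((2 ^ M * (2 ^ M * (2 ^ (2 * q * M) * (2 ^ M * (2 ^ M * 2 ^ M))))) * 2 ^ M)) := by
    unfold NN
    gcongr
  refine hNN.trans ?_
  have hexp : 2 ^ (2 * q * M) * (2 ^ M *
      ((2 ^ M * (2 ^ M * (2 ^ (2 * q * M) * (2 ^ M * (2 ^ M * 2 ^ M))))) * 2 ^ M))
      = 2 ^ (4 * q * M + 7 * M) := by
    simp only [← pow_add]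
    congr 1
    ring
  rw [hexp]
  apply Nat.pow_le_pow_right (by norm_num)
  rw [hM]
  have h1 : q * D ≤ q ^ 2 * D := by
    apply Nat.mul_le_mul_right
    rw [pow_two]
    exact Nat.le_mul_of_pos_left _ hq
  calc 4 * q * (q * (5 * D)) + 7 * (q * (5 * D)) = 20 * (q ^ 2 * D) + 35 * (q * D) := by ring
    _ ≤ 20 * (q ^ 2 * D) + 35 * (q ^ 2 * D) := by omega
    _ = 55 * q ^ 2 * D := by ring

/-- Every graph with `m ≥ 1` edges and without isolated vertices has `q`-colour Ramsey number at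
most `2^(110 q^2 √m)`, for every `q ≥ 1`. -/
theorem ramsey_edges (q : ℕ) (hq : 0 < q) (V : Type) [Fintype V] (H : SimpleGraph V)
    [DecidableRel H.Adj] (hiso : ∀ v : V, ∃ w : V, H.Adj v w) :
    ∃ n : ℕ, (n : ℝ) ≤ (2 : ℝ) ^ ((110 * (q : ℝ) ^ 2) * Real.sqrt (H.edgeFinset.card : ℝ)) ∧
      ∀ col : Sym2 (Fin n) → Fin q, ∃ i : Fin q, ∃ f : V → Fin n,
        Function.Injective f ∧ ∀ u v : V, H.Adj u v → col s(f u, f v) = i := by
  classical
  rcases isEmpty_or_nonempty V with hV | hV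
  · refine ⟨0, by rw [Nat.cast_zero]; positivity, fun col => ⟨⟨0, hq⟩, fun v => (hV.false v).elim, ?_, ?_⟩⟩
    · intro v
      exact (hV.false v).elim
    · intro v
      exact (hV.false v).elim
  set m := H.edgeFinset.card with hm
  have hmpos : 0 < m := by
    obtain ⟨v⟩ := hV
    obtain ⟨w, hw⟩ := hiso v
    rw [hm, card_pos]
    exact ⟨s(v, w), by rw [SimpleGraph.mem_edgeFinset]; exact hw⟩
  set D := Nat.sqrt m + 1 with hD
  have hmD : m < D ^ 2 := by
    rw [hD, pow_two]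
    exact Nat.lt_succ_sqrt m
  have hsum : ∑ v, H.degree v = 2 * m := H.sum_degrees_eq_twice_card_edges
  set Big : Finset V := univ.filter fun v => D < H.degree v with hBig
  have hBigcard : Big.card ≤ 2 * D := by
    by_contra hcon
    push Not at hcon
    have h1 : Big.card * D ≤ 2 * m := by
      calc Big.card * D = ∑ _v ∈ Big, D := by rw [sum_const, smul_eq_mul]
        _ ≤ ∑ v ∈ Big, H.degree v := by
          apply sum_le_sum
          intro v hv
          exact (mem_filter.1 hv).2.le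
        _ ≤ ∑ v, H.degree v := sum_le_sum_of_subset (subset_univ _)
        _ = 2 * m := hsum
    have h2 : 2 * D * D ≤ Big.card * D := Nat.mul_le_mul_right _ hcon.le
    have h3 : 2 * D * D = 2 * D ^ 2 := by ring
    omega
  have hn : Fintype.card V ≤ 2 * D ^ 2 := by
    have h1 : Fintype.card V ≤ ∑ v, H.degree v := by
      calc Fintype.card V = ∑ _v : V, 1 := by simp
        _ ≤ ∑ v, H.degree v := by
          apply sum_le_sum
          intro v _
          obtain ⟨w, hw⟩ := hiso v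
          have : 0 < H.degree v := by
            rw [SimpleGraph.degree_pos_iff_exists_adj]
            exact ⟨w, hw⟩
          omega
    omega
  refine ⟨NN q (q * (5 * D)) (Fintype.card V), ?_, fun col => ?_⟩
  · have h1 := NN_le q D (Fintype.card V) hq (by omega) hn
    have h2 : ((NN q (q * (5 * D)) (Fintype.card V) : ℕ) : ℝ) ≤ (2 : ℝ) ^ (55 * q ^ 2 * D) := by
      exact_mod_cast h1
    refine h2.trans ?_
    rw [← Real.rpow_natCast]
    apply Real.rpow_le_rpow_of_exponent_le (by norm_num)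
    have h3 : (D : ℝ) ≤ 2 * Real.sqrt m := by
      have h4 : (Nat.sqrt m : ℝ) ≤ Real.sqrt m := Real.nat_sqrt_le_real_sqrt
      have h5 : (1 : ℝ) ≤ Real.sqrt m := by
        rw [Real.one_le_sqrt]
        exact_mod_cast hmpos
      rw [hD]
      push_cast
      linarith
    push_cast
    have h6 : (0 : ℝ) ≤ 55 * (q : ℝ) ^ 2 := by positivity
    calc (55 * (q : ℝ) ^ 2 * D) ≤ 55 * (q : ℝ) ^ 2 * (2 * Real.sqrt m) := by
          exact mul_le_mul_of_nonneg_left h3 h6
      _ = 110 * (q : ℝ) ^ 2 * Real.sqrt m := by ring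
  · exact core H q (5 * D) D (Fintype.card V) (q * (5 * D)) _ Big hq (by omega) rfl
      Fintype.card_pos rfl rfl (by omega)
      (fun v hv => by
        by_contra hcon
        push Not at hcon
        exact hv (mem_filter.2 ⟨mem_univ _, hcon⟩)) col

end Pool.Agent.Ram01c5
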